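import Mathlib

/-! # Beanstalk: many positions are forced wins

Every odd `m`, prime to `3`, from which the player to move can force a win has four children among
`(K m ± 1) / 3`, `K = 8, 32, 128, 512, 2048, 8192`, with the same properties: the mover plays to
`K m`, and the forced halvings give the move at `m` to him again. They are at most
`11 m`, `43 m`, `683 m` and `2731 m`.
Different parents have different children, since `m` is the odd part of the one of `3 n + 1`,
`3 n - 1` which is divisible by `4`. -/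

set_option autoImplicit false

namespace Pool.Agent.Results.MP_8093a3_co.ManyForcedWins

/-- the moves of Beanstalk -/
def Move (n m : ℕ) : Prop :=
  (Even n ∧ n = 2 * m) ∨ (Odd n ∧ (m = 3 * n + 1 ∨ m + 1 = 3 * n))

mutual
/-- the player to move at the position can force a win (after finitely many moves) -/
inductive MoverWins : ℕ → Prop
  | step (n m : ℕ) : 2 ≤ n → Move n m → OpponentWins m → MoverWins n
/-- the opponent of the player to move can force a win; at `1` he has just won -/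
inductive OpponentWins : ℕ → Prop
  | one : OpponentWins 1
  | step (n : ℕ) : 2 ≤ n → (∀ m, Move n m → MoverWins m) → OpponentWins n
end

lemma opp_two {m : ℕ} (hm : 1 ≤ m) (h : MoverWins m) : OpponentWins (2 * m) := by
  refine OpponentWins.step _ (by omega) ?_
  rintro k (⟨_, hk⟩ | ⟨ho, _⟩)
  · obtain rfl : k = m := by omega
    exact h
  · rw [Nat.odd_iff] at ho
    omega

lemma mov_two {m : ℕ} (hm : 1 ≤ m) (h : OpponentWins m) : MoverWins (2 * m) :=
  MoverWins.step _ m (by omega) (Or.inl ⟨by simp, rfl⟩) h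

lemma opp8 {m : ℕ} (hm : 1 ≤ m) (h : MoverWins m) : OpponentWins (8 * m) := by
  have h1 := opp_two (m := 2 * (2 * m)) (by omega) (mov_two (by omega) (opp_two hm h))
  rwa [show 2 * (2 * (2 * m)) = 8 * m by ring] at h1

lemma opp4 {m : ℕ} (hm : 1 ≤ m) (h : OpponentWins m) : OpponentWins (4 * m) := by
  have h1 := opp_two (m := 2 * m) (by omega) (mov_two hm h)
  rwa [show 2 * (2 * m) = 4 * m by ring] at h1

lemma opp32 {m : ℕ} (hm : 1 ≤ m) (h : MoverWins m) : OpponentWins (32 * m) := by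
  have h1 := opp4 (m := 8 * m) (by omega) (opp8 hm h)
  rwa [show 4 * (8 * m) = 32 * m by ring] at h1

lemma opp128 {m : ℕ} (hm : 1 ≤ m) (h : MoverWins m) : OpponentWins (128 * m) := by
  have h1 := opp4 (m := 32 * m) (by omega) (opp32 hm h)
  rwa [show 4 * (32 * m) = 128 * m by ring] at h1

/-- odd, prime to three, and won by the mover -/
def Good (m : ℕ) : Prop := m % 2 = 1 ∧ m % 3 ≠ 0 ∧ 2 ≤ m ∧ MoverWins m

lemma opp512 {m : ℕ} (hm : 1 ≤ m) (h : MoverWins m) : OpponentWins (512 * m) := by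
  have h1 := opp4 (m := 128 * m) (by omega) (opp128 hm h)
  rwa [show 4 * (128 * m) = 512 * m by ring] at h1

lemma opp2048 {m : ℕ} (hm : 1 ≤ m) (h : MoverWins m) : OpponentWins (2048 * m) := by
  have h1 := opp4 (m := 512 * m) (by omega) (opp512 hm h)
  rwa [show 4 * (512 * m) = 2048 * m by ring] at h1

lemma opp8192 {m : ℕ} (hm : 1 ≤ m) (h : MoverWins m) : OpponentWins (8192 * m) := by
  have h1 := opp4 (m := 2048 * m) (by omega) (opp2048 hm h)
  rwa [show 4 * (2048 * m) = 8192 * m by ring] at h1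

lemma close {a b : ℕ} (h : (a + 1) / 3 = (b + 1) / 3) : a ≤ b + 2 ∧ b ≤ a + 2 := by
  omega

/-- one of three children is divisible by three -/
lemma bad8 {m : ℕ} (h3 : m % 3 ≠ 0) (h : ((8 * m + 1) / 3) % 3 = 0) :
    ((32 * m + 1) / 3) % 3 ≠ 0 ∧ ((128 * m + 1) / 3) % 3 ≠ 0 := by
  obtain ⟨a, r, hr, rfl⟩ : ∃ a r, r < 9 ∧ m = 9 * a + r := ⟨m / 9, m % 9, by omega, by omega⟩
  interval_cases r <;> omega

lemma bad128 {m : ℕ} (h3 : m % 3 ≠ 0) (h : ((128 * m + 1) / 3) % 3 = 0) :
    ((32 * m + 1) / 3) % 3 ≠ 0 := by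
  obtain ⟨a, r, hr, rfl⟩ : ∃ a r, r < 9 ∧ m = 9 * a + r := ⟨m / 9, m % 9, by omega, by omega⟩
  interval_cases r <;> omega

lemma bad512 {m : ℕ} (h3 : m % 3 ≠ 0) (h : ((512 * m + 1) / 3) % 3 = 0) :
    ((2048 * m + 1) / 3) % 3 ≠ 0 ∧ ((8192 * m + 1) / 3) % 3 ≠ 0 := by
  obtain ⟨a, r, hr, rfl⟩ : ∃ a r, r < 9 ∧ m = 9 * a + r := ⟨m / 9, m % 9, by omega, by omega⟩
  interval_cases r <;> omega

lemma bad8192 {m : ℕ} (h3 : m % 3 ≠ 0) (h : ((8192 * m + 1) / 3) % 3 = 0) :
    ((2048 * m + 1) / 3) % 3 ≠ 0 := by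
  obtain ⟨a, r, hr, rfl⟩ : ∃ a r, r < 9 ∧ m = 9 * a + r := ⟨m / 9, m % 9, by omega, by omega⟩
  interval_cases r <;> omega

lemma child {n q : ℕ} (hn : 2 ≤ n) (ho : n % 2 = 1) (h3 : n % 3 ≠ 0) (h : OpponentWins q)
    (hq : q = 3 * n + 1 ∨ q + 1 = 3 * n) : Good n :=
  ⟨ho, h3, hn, MoverWins.step n q hn (Or.inr ⟨Nat.odd_iff.2 ho, hq⟩) h⟩

lemma child' {t : ℕ} (ht : t % 3 ≠ 0) (h2 : t % 2 = 0) (h5 : 5 ≤ t)
    (h3 : ((t + 1) / 3) % 3 ≠ 0) (h : OpponentWins t) : Good ((t + 1) / 3) :=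
  child (by omega) (by omega) h3 h (by omega)

/-- the first child -/
def f1 (m : ℕ) : ℕ := if ((8 * m + 1) / 3) % 3 ≠ 0 then (8 * m + 1) / 3 else (32 * m + 1) / 3

/-- the second child -/
def f2 (m : ℕ) : ℕ := if ((128 * m + 1) / 3) % 3 ≠ 0 then (128 * m + 1) / 3 else (32 * m + 1) / 3

/-- the third child -/
def f3 (m : ℕ) : ℕ :=
  if ((512 * m + 1) / 3) % 3 ≠ 0 then (512 * m + 1) / 3 else (2048 * m + 1) / 3

/-- the fourth child -/
def f4 (m : ℕ) : ℕ :=
  if ((8192 * m + 1) / 3) % 3 ≠ 0 then (8192 * m + 1) / 3 else (2048 * m + 1) / 3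

lemma good_f1 {m : ℕ} (h : Good m) : Good (f1 m) := by
  obtain ⟨h1, h2, h3, h4⟩ := h
  unfold f1
  split_ifs with h5
  · exact child' (t := 8 * m) (by clear h5; omega) (by clear h5; omega) (by clear h5; omega) h5
      (opp8 (by clear h5; omega) h4)
  · have h6 := (bad8 h2 (by omega)).1
    clear h5
    exact child' (t := 32 * m) (by clear h6; omega) (by clear h6; omega) (by clear h6; omega) h6
      (opp32 (by clear h6; omega) h4)

lemma good_f2 {m : ℕ} (h : Good m) : Good (f2 m) := by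
  obtain ⟨h1, h2, h3, h4⟩ := h
  unfold f2
  split_ifs with h5
  · exact child' (t := 128 * m) (by clear h5; omega) (by clear h5; omega) (by clear h5; omega) h5
      (opp128 (by clear h5; omega) h4)
  · have h6 := bad128 h2 (by omega)
    clear h5
    exact child' (t := 32 * m) (by clear h6; omega) (by clear h6; omega) (by clear h6; omega) h6
      (opp32 (by clear h6; omega) h4)

lemma good_f3 {m : ℕ} (h : Good m) : Good (f3 m) := by
  obtain ⟨h1, h2, h3, h4⟩ := h
  unfold f3
  split_ifs with h5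
  · exact child' (t := 512 * m) (by clear h5; omega) (by clear h5; omega) (by clear h5; omega) h5
      (opp512 (by clear h5; omega) h4)
  · have h6 := (bad512 h2 (by omega)).1
    clear h5
    exact child' (t := 2048 * m) (by clear h6; omega) (by clear h6; omega) (by clear h6; omega) h6
      (opp2048 (by clear h6; omega) h4)

lemma good_f4 {m : ℕ} (h : Good m) : Good (f4 m) := by
  obtain ⟨h1, h2, h3, h4⟩ := h
  unfold f4
  split_ifs with h5
  · exact child' (t := 8192 * m) (by clear h5; omega) (by clear h5; omega) (by clear h5; omega) h5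
      (opp8192 (by clear h5; omega) h4)
  · have h6 := bad8192 h2 (by omega)
    clear h5
    exact child' (t := 2048 * m) (by clear h6; omega) (by clear h6; omega) (by clear h6; omega) h6
      (opp2048 (by clear h6; omega) h4)

lemma f1_inj {x y : ℕ} (hx : Good x) (hy : Good y) (h : f1 x = f1 y) : x = y := by
  obtain ⟨h1, h2, h3, -⟩ := hx
  obtain ⟨g1, g2, g3, -⟩ := hy
  unfold f1 at h
  split_ifs at h <;> (have h' := close h; clear h; omega)

lemma f2_inj {x y : ℕ} (hx : Good x) (hy : Good y) (h : f2 x = f2 y) : x = y := by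
  obtain ⟨h1, h2, h3, -⟩ := hx
  obtain ⟨g1, g2, g3, -⟩ := hy
  unfold f2 at h
  split_ifs at h <;> (have h' := close h; clear h; omega)

lemma f3_inj {x y : ℕ} (hx : Good x) (hy : Good y) (h : f3 x = f3 y) : x = y := by
  obtain ⟨h1, h2, h3, -⟩ := hx
  obtain ⟨g1, g2, g3, -⟩ := hy
  unfold f3 at h
  split_ifs at h <;> (have h' := close h; clear h; omega)

lemma f4_inj {x y : ℕ} (hx : Good x) (hy : Good y) (h : f4 x = f4 y) : x = y := by
  obtain ⟨h1, h2, h3, -⟩ := hx
  obtain ⟨g1, g2, g3, -⟩ := hy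
  unfold f4 at h
  split_ifs at h <;> (have h' := close h; clear h; omega)

lemma f12_ne {x y : ℕ} (hx : Good x) (hy : Good y) : f1 x ≠ f2 y := by
  obtain ⟨h1, h2, h3, -⟩ := hx
  obtain ⟨g1, g2, g3, -⟩ := hy
  intro h
  unfold f1 f2 at h
  split_ifs at h with a1 a2 a3
  · have h' := close h
    clear h a1 a2
    omega
  · have h' := close h
    clear h a1 a2
    omega
  · have h' := close h
    clear h a1 a3
    omega
  · have h' := close h
    obtain rfl : x = y := by
      clear h a1 a3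
      omega
    exact a3 (bad8 h2 (by omega)).2

lemma f34_ne {x y : ℕ} (hx : Good x) (hy : Good y) : f3 x ≠ f4 y := by
  obtain ⟨h1, h2, h3, -⟩ := hx
  obtain ⟨g1, g2, g3, -⟩ := hy
  intro h
  unfold f3 f4 at h
  split_ifs at h with a1 a2 a3
  · have h' := close h
    clear h a1 a2
    omega
  · have h' := close h
    clear h a1 a2
    omega
  · have h' := close h
    clear h a1 a3
    omega
  · have h' := close h
    obtain rfl : x = y := by
      clear h a1 a3
      omega
    exact a3 (bad512 h2 (by omega)).2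

lemma f13_ne {x y : ℕ} (hx : Good x) (hy : Good y) : f1 x ≠ f3 y := by
  obtain ⟨h1, h2, h3, -⟩ := hx
  obtain ⟨g1, g2, g3, -⟩ := hy
  intro h
  unfold f1 f3 at h
  split_ifs at h with a1 a2 a3
  · have h' := close h
    clear h a1 a2
    omega
  · have h' := close h
    clear h a1 a2
    omega
  · have h' := close h
    clear h a1 a3
    omega
  · have h' := close h
    clear h a1 a3
    omega

lemma f14_ne {x y : ℕ} (hx : Good x) (hy : Good y) : f1 x ≠ f4 y := by
  obtain ⟨h1, h2, h3, -⟩ := hx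
  obtain ⟨g1, g2, g3, -⟩ := hy
  intro h
  unfold f1 f4 at h
  split_ifs at h with a1 a2 a3
  · have h' := close h
    clear h a1 a2
    omega
  · have h' := close h
    clear h a1 a2
    omega
  · have h' := close h
    clear h a1 a3
    omega
  · have h' := close h
    clear h a1 a3
    omega

lemma f23_ne {x y : ℕ} (hx : Good x) (hy : Good y) : f2 x ≠ f3 y := by
  obtain ⟨h1, h2, h3, -⟩ := hx
  obtain ⟨g1, g2, g3, -⟩ := hy
  intro h
  unfold f2 f3 at h
  split_ifs at h with a1 a2 a3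
  · have h' := close h
    clear h a1 a2
    omega
  · have h' := close h
    clear h a1 a2
    omega
  · have h' := close h
    clear h a1 a3
    omega
  · have h' := close h
    clear h a1 a3
    omega

lemma f24_ne {x y : ℕ} (hx : Good x) (hy : Good y) : f2 x ≠ f4 y := by
  obtain ⟨h1, h2, h3, -⟩ := hx
  obtain ⟨g1, g2, g3, -⟩ := hy
  intro h
  unfold f2 f4 at h
  split_ifs at h with a1 a2 a3
  · have h' := close h
    clear h a1 a2
    omega
  · have h' := close h
    clear h a1 a2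
    omega
  · have h' := close h
    clear h a1 a3
    omega
  · have h' := close h
    clear h a1 a3
    omega

lemma f1_le {m : ℕ} (hm : 2 ≤ m) : f1 m ≤ 11 * m := by
  unfold f1
  split_ifs <;> omega

lemma f2_le {m : ℕ} (hm : 2 ≤ m) : f2 m ≤ 43 * m := by
  unfold f2
  split_ifs <;> omega

lemma f3_le {m : ℕ} (hm : 2 ≤ m) : f3 m ≤ 683 * m := by
  unfold f3
  split_ifs <;> omega

lemma f4_le {m : ℕ} (hm : 2 ≤ m) : f4 m ≤ 2731 * m := by
  unfold f4
  split_ifs <;> omega

/-- the good positions up to `x` -/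
def S (x : ℝ) : Set ℕ := {n | (n : ℝ) ≤ x ∧ Good n}

lemma fin_le (x : ℝ) : {n : ℕ | (n : ℝ) ≤ x}.Finite :=
  (Set.finite_Iic ⌊x⌋₊).subset fun _ h => Nat.le_floor h

lemma S_fin (x : ℝ) : (S x).Finite := (fin_le x).subset fun _ h => h.1

lemma image_sub (x : ℝ) (b : ℕ) (hb : 0 < b) (f : ℕ → ℕ) (hf : ∀ m, Good m → Good (f m))
    (hle : ∀ m, 2 ≤ m → f m ≤ b * m) : f '' S (x / b) ⊆ S x := by
  rintro _ ⟨m, hm, rfl⟩
  refine ⟨?_, hf m hm.2⟩
  have h1 : ((f m : ℕ) : ℝ) ≤ b * m := by exact_mod_cast hle m hm.2.2.2.1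
  have h2 := hm.1
  have hb' : (0 : ℝ) < b := by exact_mod_cast hb
  rw [le_div_iff₀ hb'] at h2
  linarith

lemma recur (x : ℝ) : (S (x / 11)).ncard + (S (x / 43)).ncard + (S (x / 683)).ncard +
    (S (x / 2731)).ncard ≤ (S x).ncard := by
  have i1 : (f1 '' S (x / 11)).ncard = (S (x / 11)).ncard :=
    Set.ncard_image_of_injOn fun x hx y hy h => f1_inj hx.2 hy.2 h
  have i2 : (f2 '' S (x / 43)).ncard = (S (x / 43)).ncard :=
    Set.ncard_image_of_injOn fun x hx y hy h => f2_inj hx.2 hy.2 h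
  have i3 : (f3 '' S (x / 683)).ncard = (S (x / 683)).ncard :=
    Set.ncard_image_of_injOn fun x hx y hy h => f3_inj hx.2 hy.2 h
  have i4 : (f4 '' S (x / 2731)).ncard = (S (x / 2731)).ncard :=
    Set.ncard_image_of_injOn fun x hx y hy h => f4_inj hx.2 hy.2 h
  have s1 : f1 '' S (x / 11) ⊆ S x := by
    have := image_sub x 11 (by norm_num) f1 (fun _ => good_f1) (fun _ => f1_le)
    exact_mod_cast this
  have s2 : f2 '' S (x / 43) ⊆ S x := by
    have := image_sub x 43 (by norm_num) f2 (fun _ => good_f2) (fun _ => f2_le)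
    exact_mod_cast this
  have s3 : f3 '' S (x / 683) ⊆ S x := by
    have := image_sub x 683 (by norm_num) f3 (fun _ => good_f3) (fun _ => f3_le)
    exact_mod_cast this
  have s4 : f4 '' S (x / 2731) ⊆ S x := by
    have := image_sub x 2731 (by norm_num) f4 (fun _ => good_f4) (fun _ => f4_le)
    exact_mod_cast this
  have d12 : Disjoint (f1 '' S (x / 11)) (f2 '' S (x / 43)) := by
    rw [Set.disjoint_left]
    rintro _ ⟨u, hu, rfl⟩ ⟨v, hv, h⟩
    exact f12_ne hu.2 hv.2 h.symm
  have d34 : Disjoint (f3 '' S (x / 683)) (f4 '' S (x / 2731)) := by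
    rw [Set.disjoint_left]
    rintro _ ⟨u, hu, rfl⟩ ⟨v, hv, h⟩
    exact f34_ne hu.2 hv.2 h.symm
  have d : Disjoint (f1 '' S (x / 11) ∪ f2 '' S (x / 43))
      (f3 '' S (x / 683) ∪ f4 '' S (x / 2731)) := by
    rw [Set.disjoint_left]
    rintro _ (⟨u, hu, rfl⟩ | ⟨u, hu, rfl⟩) (⟨v, hv, h⟩ | ⟨v, hv, h⟩)
    · exact f13_ne hu.2 hv.2 h.symm
    · exact f14_ne hu.2 hv.2 h.symm
    · exact f23_ne hu.2 hv.2 h.symm
    · exact f24_ne hu.2 hv.2 h.symm
  have F1 := (S_fin (x / 11)).image f1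
  have F2 := (S_fin (x / 43)).image f2
  have F3 := (S_fin (x / 683)).image f3
  have F4 := (S_fin (x / 2731)).image f4
  have u12 := Set.ncard_union_eq d12 F1 F2
  have u34 := Set.ncard_union_eq d34 F3 F4
  have u := Set.ncard_union_eq d (F1.union F2) (F3.union F4)
  have h6 := Set.ncard_le_ncard (Set.union_subset (Set.union_subset s1 s2)
    (Set.union_subset s3 s4)) (S_fin x)
  omega

lemma five : Good 5 := by
  have h16 : OpponentWins 16 := by
    have := opp4 (m := 4) (by omega) (opp4 (m := 1) le_rfl OpponentWins.one)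
    simpa using this
  exact child (by omega) (by omega) (by omega) h16 (Or.inl rfl)

lemma rp (b a : ℝ) (hb : 0 < b) (ha : 0 < a) (h : a ^ 10 * b ^ 3 ≤ 1) (y : ℝ) (hy : 0 ≤ y) :
    a * y ^ ((3 : ℝ) / 10) ≤ (y / b) ^ ((3 : ℝ) / 10) := by
  have h1 : a ≤ (1 / b) ^ ((3 : ℝ) / 10) := by
    have h2 : (a ^ 10) ^ ((1 : ℝ) / 10) = a := by
      rw [← Real.rpow_natCast, ← Real.rpow_mul ha.le]
      norm_num
    have h3 : a ^ 10 ≤ (1 / b) ^ 3 := by
      rw [one_div, inv_pow, ← one_div, le_div_iff₀ (by positivity)]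
      exact h
    calc a = (a ^ 10) ^ ((1 : ℝ) / 10) := h2.symm
      _ ≤ ((1 / b) ^ 3) ^ ((1 : ℝ) / 10) := Real.rpow_le_rpow (by positivity) h3 (by norm_num)
      _ = (1 / b) ^ ((3 : ℝ) / 10) := by
          rw [← Real.rpow_natCast, ← Real.rpow_mul (by positivity)]
          norm_num
  rw [div_eq_mul_one_div y b, Real.mul_rpow hy (by positivity), mul_comm]
  exact mul_le_mul_of_nonneg_left h1 (by positivity)

lemma bound (k : ℕ) : ∀ x : ℝ, 5 ≤ x → x ≤ 13655 * 11 ^ k →
    (x / 13655) ^ ((3 : ℝ) / 10) ≤ ((S x).ncard : ℝ) := by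
  have base : ∀ x : ℝ, 5 ≤ x → x ≤ 13655 →
      (x / 13655) ^ ((3 : ℝ) / 10) ≤ ((S x).ncard : ℝ) := by
    intro x h5 hx
    have h1 : (x / 13655) ^ ((3 : ℝ) / 10) ≤ 1 :=
      Real.rpow_le_one (by positivity) (by rw [div_le_one (by norm_num)]; exact hx) (by norm_num)
    have h : ({5} : Set ℕ) ⊆ S x := by
      rintro _ rfl
      exact ⟨by exact_mod_cast h5, five⟩
    have h2 := Set.ncard_le_ncard h (S_fin _)
    rw [Set.ncard_singleton] at h2
    exact h1.trans (by exact_mod_cast h2)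
  induction k with
  | zero =>
    intro x h5 hx
    exact base x h5 (by simpa using hx)
  | succ k ih =>
    intro x h5 hx
    rcases le_or_gt x 13655 with hx' | hx'
    · exact base x h5 hx'
    have hp : (0 : ℝ) < 11 ^ k := by positivity
    rw [pow_succ] at hx
    have b1 := ih (x / 11) (by linarith) (by linarith)
    have b2 := ih (x / 43) (by linarith) (by linarith)
    have b3 := ih (x / 683) (by linarith) (by linarith)
    have b4 := ih (x / 2731) (by linarith) (by linarith)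
    have hr := recur x
    have hr' : ((S (x / 11)).ncard : ℝ) + (S (x / 43)).ncard + (S (x / 683)).ncard +
      (S (x / 2731)).ncard ≤ (S x).ncard := by exact_mod_cast hr
    have hy : (0 : ℝ) ≤ x / 13655 := by positivity
    have c1 := rp 11 0.47 (by norm_num) (by norm_num) (by norm_num) (x / 13655) hy
    have c2 := rp 43 0.31 (by norm_num) (by norm_num) (by norm_num) (x / 13655) hy
    have c3 := rp 683 0.13 (by norm_num) (by norm_num) (by norm_num) (x / 13655) hy
    have c4 := rp 2731 0.09 (by norm_num) (by norm_num) (by norm_num) (x / 13655) hy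
    rw [div_right_comm] at b1 b2 b3 b4
    have hY : (0 : ℝ) ≤ (x / 13655) ^ ((3 : ℝ) / 10) := by positivity
    linarith

lemma bound' (x : ℝ) (h5 : 5 ≤ x) : (x / 13655) ^ ((3 : ℝ) / 10) ≤ ((S x).ncard : ℝ) := by
  obtain ⟨k, hk⟩ := pow_unbounded_of_one_lt x (by norm_num : (1 : ℝ) < 11)
  exact bound k x h5 (by have : (0 : ℝ) < 11 ^ k := by positivity
                         linarith)

theorem result :
    (∀ x : ℝ, 5 ≤ x → (x / 13655) ^ ((3 : ℝ) / 10) ≤
      ({n : ℕ | (n : ℝ) ≤ x ∧ Odd n ∧ MoverWins n}.ncard : ℝ)) ∧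
    (∀ x : ℝ, 10 ≤ x → (x / 27310) ^ ((3 : ℝ) / 10) ≤
      ({n : ℕ | (n : ℝ) ≤ x ∧ n % 4 = 2 ∧ OpponentWins n}.ncard : ℝ)) := by
  constructor
  · intro x hx
    have h3 : S x ⊆ {n : ℕ | (n : ℝ) ≤ x ∧ Odd n ∧ MoverWins n} := fun n hn =>
      ⟨hn.1, Nat.odd_iff.2 hn.2.1, hn.2.2.2.2⟩
    have h4 := Set.ncard_le_ncard h3 ((fin_le x).subset fun _ h => h.1)
    exact (bound' x hx).trans (by exact_mod_cast h4)
  · intro x hx
    have h3 : (fun m => 2 * m) '' S (x / 2) ⊆
        {n : ℕ | (n : ℝ) ≤ x ∧ n % 4 = 2 ∧ OpponentWins n} := by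
      rintro _ ⟨m, hm, rfl⟩
      have hm1 := hm.1
      have hm2 := hm.2.1
      have hm3 := hm.2.2.2.1
      refine ⟨?_, ?_, opp_two (by omega) hm.2.2.2.2⟩
      · show (((2 * m : ℕ)) : ℝ) ≤ x
        push_cast
        linarith
      · show (2 * m) % 4 = 2
        omega
    have h4 := Set.ncard_le_ncard h3 ((fin_le x).subset fun _ h => h.1)
    rw [Set.ncard_image_of_injective _ (fun a b h => by simpa using h)] at h4
    have h5 := bound' (x / 2) (by linarith)
    rw [show x / 2 / 13655 = x / 27310 by ring] at h5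
    exact h5.trans (by exact_mod_cast h4)

end Pool.Agent.Results.MP_8093a3_co.ManyForcedWins
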